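import Pool.Agent.MWLE.StmtsA

set_option autoImplicit false

namespace Pool.Agent.MWLE.H3

open Pool.Agent.Helper14_MV Pool.Agent.Helper2_MV
open Pool.Agent.MWK (pre pre_prefix pre_split pre_append_mem pre_trans pre_asymm count_pre_mono)
open Pool.Agent.MWF (dbl)
open Pool.Agent.MWGN (nn Gz Tau)

theorem pre_filter (F : ℕ → Bool) (q : ℕ) (hq : F q = true) (W : List ℕ) :
    pre (W.filter F) q = (pre W q).filter F := by
  induction W with
  | nil => rfl
  | cons c W ih =>
    by_cases hc : c = q
    · subst hc
      rw [List.filter_cons_of_pos hq, Pool.Agent.MWK.pre_cons_self, Pool.Agent.MWK.pre_cons_self]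
      rfl
    · have e1 : ∀ T : List ℕ, pre (c :: T) q = c :: pre T q := by
        intro T
        unfold pre
        rw [List.takeWhile_cons_of_pos]
        simp [hc]
      rw [e1]
      by_cases hF : F c = true
      · rw [List.filter_cons_of_pos hF, List.filter_cons_of_pos hF, e1, ih]
      · rw [List.filter_cons_of_neg hF, List.filter_cons_of_neg hF, ih]

theorem names (m : ℕ) : (1 :: ((List.range (m + 1)).map (fun i => sep (i + 1)) ++
    ((List.range (m + 1)).map (fun i => pin (i + 1)) ++ (List.range (m + 1)).map con))).Nodup := by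
  rw [List.nodup_cons]
  constructor
  · intro h
    rcases List.mem_append.1 h with h | h
    · obtain ⟨i, _, hi⟩ := List.mem_map.1 h
      simp only [sep] at hi
      omega
    · rcases List.mem_append.1 h with h | h
      · obtain ⟨i, _, hi⟩ := List.mem_map.1 h
        simp only [pin] at hi
        omega
      · obtain ⟨i, _, hi⟩ := List.mem_map.1 h
        simp only [con] at hi
        omega
  · have n1 : ((List.range (m + 1)).map (fun i => sep (i + 1))).Nodup :=
      List.Nodup.map (fun a b h => by simp only [sep] at h; omega) List.nodup_range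
    have n2 : ((List.range (m + 1)).map (fun i => pin (i + 1))).Nodup :=
      List.Nodup.map (fun a b h => by simp only [pin] at h; omega) List.nodup_range
    have n3 : ((List.range (m + 1)).map con).Nodup :=
      List.Nodup.map (fun a b h => by simp only [con] at h; omega) List.nodup_range
    refine List.Nodup.append n1 (List.Nodup.append n2 n3 ?_) ?_
    · intro a h1 h2
      obtain ⟨i, _, hi⟩ := List.mem_map.1 h1
      obtain ⟨j, _, hj⟩ := List.mem_map.1 h2
      simp only [pin] at hi
      simp only [con] at hj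
      omega
    · intro a h1 h2
      obtain ⟨i, _, hi⟩ := List.mem_map.1 h1
      simp only [sep] at hi
      rcases List.mem_append.1 h2 with h2 | h2
      · obtain ⟨j, _, hj⟩ := List.mem_map.1 h2
        simp only [pin] at hj
        omega
      · obtain ⟨j, _, hj⟩ := List.mem_map.1 h2
        simp only [con] at hj
        omega

/-- **RGY** -/
theorem rgy (hrig : RigStmt) (hcpy : CpyStmt) (hpst : PstStmt) : RgyStmt := by
  intro β hβ σ τ m hτ hσ hB W hK hF h2 ht h0 h1
  obtain ⟨_, _, _, _, _, p6⟩ := hpst 0 W (by omega)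
  have hF1 : Fu m 1 = true := by simp [Fu]
  obtain ⟨W', hW'⟩ : ∃ W', W' = W.filter (Fu m) := ⟨_, rfl⟩
  have hR : RR β (W'.flatMap (psi 0)) (1 :: (lw4 (fun i => pin (i + 1)) con (m + 1) ++
      (1 :: tll (fun i => sep (i + 1)) (fun i => pin (i + 1)) τ))) := by
    have e1 := RR.filter (Fu m) hK
    rw [p6 (Fu m), (hcpy σ τ m hσ (fun i hi => (hτ.2 i).1 hi)).1] at e1
    rw [hW']
    exact e1
  have c1 : W'.count 1 = W.count 1 := by rw [hW', List.count_filter hF1]
  obtain ⟨A, B, hAB, hA1⟩ := List.eq_append_cons_of_mem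
    (List.count_pos_iff.1 (show 0 < W'.count 1 by omega))
  have hB1 : 1 ∈ B := by
    have e1 := c1
    rw [hAB, List.count_append, List.count_cons_self, List.count_eq_zero_of_not_mem hA1] at e1
    exact List.count_pos_iff.1 (by omega)
  obtain ⟨v, R0, hvR, hv1⟩ := List.eq_append_cons_of_mem hB1
  have hW2 : W' = (A ++ 1 :: v) ++ (1 :: R0) := by rw [hAB, hvR]; simp
  have hc1 : (A ++ 1 :: v).count 1 = 1 := by
    rw [List.count_append, List.count_cons_self, List.count_eq_zero_of_not_mem hA1,
      List.count_eq_zero_of_not_mem hv1]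
  have hpn : ∀ k, 1 ≤ k → k ≤ m + 1 → Fu m (pin k) = true := by
    intro k h3 h4
    simp only [Fu, pin, sep, con, decide_eq_true_eq]
    omega
  have hlet : ∀ c ∈ W', c ≠ 1 → c % 5 = 4 ∨ ∃ k, 1 ≤ k ∧ k ≤ m + 1 ∧ (c = pin k ∨ c = sep k) := by
    intro c hc hc1
    rw [hW', List.mem_filter] at hc
    have h3 := hc.2
    simp only [Fu, pin, sep, con, decide_eq_true_eq] at h3
    rcases h3 with h3 | h3 | h3 | h3
    · exact absurd h3 hc1
    · exact Or.inl h3.1
    · refine Or.inr ⟨c / 5, by omega, by omega, Or.inl ?_⟩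
      simp only [pin]
      omega
    · refine Or.inr ⟨c / 5, by omega, by omega, Or.inr ?_⟩
      simp only [sep]
      omega
  -- the simple letters are behind two letters `1`
  have hs : ∀ k ≤ 2 * m + 2, 2 ≤ nn W 1 (sep k) := by
    intro k hk
    obtain ⟨h, σ', hσ'⟩ : ∃ h σ', σ = h :: σ' := by
      cases hh : σ with
      | nil =>
        have h3 := (hσ.me 0).2 (by omega)
        rw [hh] at h3
        exact absurd h3 List.not_mem_nil
      | cons a l => exact ⟨a, l, rfl⟩
    have ht1 : t1 σ = sep h := by rw [hσ']; rfl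
    have h4 : 2 ≤ nn W 1 (sep h) := by rw [← ht1, ht]; exact h2
    by_cases hkh : k = h
    · rw [hkh]; exact h4
    · have h5 : h ∈ pre σ k := by
        rw [hσ']
        unfold pre
        rw [List.takeWhile_cons_of_pos]
        · exact List.mem_cons_self
        · simp [Ne.symm hkh]
      have h6 := hF.ss h k ((hσ.me h).1 (by rw [hσ']; exact List.mem_cons_self)) hk h5
      have h7 : sep h ∈ pre W (sep k) := List.count_pos_iff.1 (by unfold nn at h6; omega)
      exact h4.trans (count_pre_mono h7 1)
  have hpreA : A = (pre W 1).filter (Fu m) := by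
    rw [← pre_filter (Fu m) 1 hF1 W, ← hW', hAB, pre_split hA1]
  have hA : ∀ c ∈ A, c % 5 = 4 := by
    intro c hc
    have hcW : c ∈ W' := by rw [hAB]; exact List.mem_append_left _ hc
    have hcp : c ∈ pre W 1 := by
      rw [hpreA] at hc
      exact (List.mem_filter.1 hc).1
    rcases hlet c hcW (fun hh => hA1 (hh ▸ hc)) with h3 | ⟨k, k1, k2, h3 | h3⟩
    · exact h3
    · exfalso
      have h4 : 1 ∈ pre W (pin 0) := List.count_pos_iff.1 (by unfold nn at h0; omega)
      have h5 := hF.po 0 k (by omega) (by omega)
      rw [h3] at hcp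
      exact pre_asymm (pre_trans h4 h5) hcp
    · exfalso
      have h4 := hs k (by omega)
      have h5 : 1 ∈ pre W (sep k) := List.count_pos_iff.1 (by unfold nn at h4; omega)
      rw [h3] at hcp
      exact pre_asymm h5 hcp
  have hv : ∀ q ∈ v, nn W 1 q ≤ 1 := by
    intro q hq
    have hqW : q ∈ W' := by
      rw [hW2]
      exact List.mem_append_left _ (List.mem_append_right _ (List.mem_cons_of_mem _ hq))
    have hqF : Fu m q = true := by
      rw [hW'] at hqW
      exact (List.mem_filter.1 hqW).2
    have e1 : nn W 1 q = (pre W' q).count 1 := by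
      rw [hW', pre_filter _ _ hqF, List.count_filter hF1]
      rfl
    rw [e1, hW2, pre_append_mem (List.mem_append_right _ (List.mem_cons_of_mem _ hq))]
    exact ((pre_prefix _ _).sublist.count_le 1).trans hc1.le
  have hvQ : ∀ c ∈ v, decide (c % 5 ≠ 4) = true → ∃ i < m, c = pin (i + 1) := by
    intro c hc hQ
    rw [decide_eq_true_eq] at hQ
    have hcW : c ∈ W' := by
      rw [hW2]
      exact List.mem_append_left _ (List.mem_append_right _ (List.mem_cons_of_mem _ hc))
    have h3 := hv c hc
    rcases hlet c hcW (fun hh => hv1 (hh ▸ hc)) with h4 | ⟨k, k1, k2, h4 | h4⟩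
    · exact absurd h4 hQ
    · by_cases hk : k = m + 1
      · rw [h4, hk] at h3
        omega
      · refine ⟨k - 1, by omega, ?_⟩
        rw [h4]
        congr 1
        omega
    · rw [h4] at h3
      have h5 := hs k (by omega)
      omega
  -- the prefix in front of the first simple letter
  have hP : (A ++ 1 :: v) <+: (pre W (t1 σ)).filter (Fu m) := by
    have h3 : (A ++ 1 :: v) <+: W' := ⟨_, hW2.symm⟩
    have h4 : (pre W (t1 σ)).filter (Fu m) <+: W' := by
      rw [hW']
      exact (pre_prefix W (t1 σ)).filter _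
    rcases List.prefix_or_prefix_of_prefix h3 h4 with h5 | h5
    · exact h5
    · exfalso
      have h6 := h5.sublist.count_le 1
      rw [hc1, List.count_filter hF1] at h6
      unfold nn at ht
      omega
  have hone : ∀ k, 1 ≤ k → k ≤ m → (A ++ 1 :: v).count (pin k) ≤ 1 := by
    intro k k1 k2
    have h3 := hP.sublist.count_le (pin k)
    rw [List.count_filter (hpn k k1 (by omega))] at h3
    have h4 := hF.pt k (by omega)
    unfold nn at h4
    omega
  have hcv : ∀ c, v.count c ≤ (A ++ 1 :: v).count c := by
    intro c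
    rw [List.count_append, List.count_cons]
    omega
  have hnd : (v.filter (fun c => decide (c % 5 ≠ 4))).Nodup := by
    rw [List.nodup_iff_count_le_one]
    intro a
    by_cases ha : a ∈ v.filter (fun c => decide (c % 5 ≠ 4))
    · obtain ⟨ha1, ha2⟩ := List.mem_filter.1 ha
      obtain ⟨i, hi, hai⟩ := hvQ a ha1 ha2
      have h3 := hone (i + 1) (by omega) (by omega)
      have h4 := hcv a
      have h5 := (List.filter_sublist (p := fun c => decide (c % 5 ≠ 4)) (l := v)).count_le a
      rw [← hai] at h3
      omega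
    · rw [List.count_eq_zero_of_not_mem ha]
      omega
  have hlen : (v.filter (fun c => decide (c % 5 ≠ 4))).length ≤ m := by
    have h3 : v.filter (fun c => decide (c % 5 ≠ 4)) ⊆
        (List.range m).map (fun i => pin (i + 1)) := by
      intro a ha
      obtain ⟨ha1, ha2⟩ := List.mem_filter.1 ha
      obtain ⟨i, hi, hai⟩ := hvQ a ha1 ha2
      exact List.mem_map.2 ⟨i, List.mem_range.2 hi, hai.symm⟩
    have h4 := (hnd.subperm h3).length_le
    rwa [List.length_map, List.length_range] at h4
  have hmem : ∀ c ∈ v, decide (c % 5 ≠ 4) = true → c ∈ R0.flatMap (psi 0) := by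
    intro c hc hQ
    obtain ⟨i, hi, hci⟩ := hvQ c hc hQ
    have h3 := hone (i + 1) (by omega) (by omega)
    have h4 : W'.count (pin (i + 1)) = W.count (pin (i + 1)) := by
      rw [hW', List.count_filter (hpn _ (by omega) (by omega))]
    have h5 := hF.p2 (i + 1) (by omega)
    have h6 : (1 : ℕ) ≠ pin (i + 1) := by simp only [pin]; omega
    rw [hW2, List.count_append, List.count_cons_of_ne h6] at h4
    have h7 : pin (i + 1) ∈ R0 := List.count_pos_iff.1 (by omega)
    rw [List.mem_flatMap]
    refine ⟨c, by rw [hci]; exact h7, ?_⟩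
    rw [decide_eq_true_eq] at hQ
    have h8 : c ≠ 0 := by rw [hci]; simp only [pin]; omega
    unfold psi
    rw [if_neg h8, if_neg hQ]
    exact List.mem_singleton_self c
  have e1 : A.flatMap (psi 0) = dbl A := by
    unfold dbl
    apply List.flatMap_congr
    intro a ha
    have h3 := hA a ha
    unfold psi
    rw [if_neg (by omega), if_pos h3]
  have hv0 : ∀ c ∈ v, c ≠ 0 := by
    rintro c hc rfl
    have hcW : 0 ∈ W' := by
      rw [hW2]
      exact List.mem_append_left _ (List.mem_append_right _ (List.mem_cons_of_mem _ hc))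
    rw [hW', List.mem_filter] at hcW
    have h3 := hcW.2
    simp only [Fu, pin, sep, con, decide_eq_true_eq] at h3
    omega
  have e2 : v.flatMap (psi 0) = dq (fun c => decide (c % 5 ≠ 4)) v := by
    unfold dq
    apply List.flatMap_congr
    intro a ha
    have h3 := hv0 a ha
    unfold psi
    rw [if_neg h3]
    by_cases h4 : a % 5 = 4
    · rw [if_pos h4, if_neg (by simp [h4])]
    · rw [if_neg h4, if_pos (by simp [h4])]
  have e3 : psi 0 1 = [1] := rfl
  have e4 : W'.flatMap (psi 0) = dbl A ++ 1 :: (dq (fun c => decide (c % 5 ≠ 4)) v ++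
      1 :: R0.flatMap (psi 0)) := by
    rw [hAB, hvR, List.flatMap_append, List.flatMap_cons, List.flatMap_append, List.flatMap_cons,
      e1, e2, e3]
    rfl
  rw [e4] at hR
  exact hrig β hβ m τ hτ hB 1 (fun i => sep (i + 1)) (fun i => pin (i + 1)) con (names m)
    (fun c => decide (c % 5 ≠ 4)) A v (R0.flatMap (psi 0)) hlen hnd hmem hR

end Pool.Agent.MWLE.H3
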